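import Pool.Agent.H602.KS.AllN

/-!
# Progression-free subsets of arbitrary sets with `N` elements, compared with `r_3(N)`

For `k ≥ 3` let `r k N` be the largest size of a subset of `{1, ..., N}` without arithmetic
progressions of length `k` (`k = 3`: the function `r_3` of the question).  Komlós, Sulyok and Szemerédi
proved that every set of `N` integers has a progression-free subset with at least `c r k N` elements.

* (1) For all `N` and all `m ≥ N / 4` every set `S` with `N` elements in a torsion-free group (the
  integers, `ℤ ^ d`, the reals) has a progression-free subset with at least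
  `r k m * (N / (4 m)) * (1 - N / (8 m))` elements.
* (2) In particular (`m = N`) it has one with at least `(7 / 32) * r k N` elements, for all `N`.
* (3) Outside a set of `N` whose sum of reciprocals up to `x` is `O(√(log x))` the constant is
  `1 / 4 - ε`, also for weights: if `S` has `N` elements and `w ≥ 0` is any function on `S`, some
  progression-free subset carries a proportion `(1 / 4 - ε) * r k N / N` of the weight of `S`.

Proof.  We may assume that `S` is a set of integers.  Let `p` be a large prime number and divide
`{0, ..., p - 1}` into half cells and gaps of length `p / (4 m)`, where the `m` half cells are in the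
lower half.  Map `x` to `t x + b` modulo `p`, with random `t`, `b`.  If three terms in progression are
mapped to half cells, then the numbers of the half cells are in progression, too.  So the points in the
half cells whose numbers are in an extremal set for `r k m` form a progression-free set if one
takes only one point from each half cell.  The points of `S` are pairwise independent; this gives
(1).  For (3) one takes `m = K N`, so that most points are alone in their half cell, and one uses that
`r k m / m` is about `r k N / N` for all `N` which are not exceptional.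
-/

set_option autoImplicit false

open Finset

namespace Pool.Agent.Results.MP_0f71ae_nt.ArbitrarySets

open Pool.Agent.H617R3.AP Pool.Agent.H602.KS

universe u

open Classical in
/-- `FreeIn k A`: `A` contains no progression `a, a + d, ..., a + (k - 1) d` with `d ≠ 0`. -/
theorem result (k : ℕ) (hk : 3 ≤ k) :
    -- (1) all `N`
    (∀ (G : Type u) [AddCommGroup G] [IsAddTorsionFree G] (S : Finset G) (m : ℕ), 1 ≤ m →
      S.card ≤ 4 * m → ∃ A ⊆ S, FreeIn k A ∧
        (r k m : ℝ) * ((S.card : ℝ) / (4 * m)) * (1 - (S.card : ℝ) / (8 * m)) ≤ A.card) ∧
    -- (2) all `N`, `m = N`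
    (∀ (G : Type u) [AddCommGroup G] [IsAddTorsionFree G] (S : Finset G),
      ∃ A ⊆ S, FreeIn k A ∧ (7 / 32 : ℝ) * r k S.card ≤ A.card) ∧
    -- (3) almost all `N`, with weights
    ∀ ε : ℝ, 0 < ε → ∃ (C : ℝ) (E : Set ℕ),
      (∀ x : ℕ, 2 ≤ x → ∑ N ∈ (Icc 1 x).filter (fun N => N ∈ E), (1 : ℝ) / N ≤
        C * √(Real.log x)) ∧
      ∀ N : ℕ, 1 ≤ N → N ∉ E → ∀ (G : Type u) [AddCommGroup G] [IsAddTorsionFree G] (S : Finset G),
        S.card = N → ∀ w : G → ℝ, (∀ x, 0 ≤ w x) → ∃ A ⊆ S, FreeIn k A ∧
          ((1 / 4 - ε) * (r k N / N)) * ∑ x ∈ S, w x ≤ ∑ x ∈ A, w x := by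
  have htf : ∀ (G : Type u) [AddCommGroup G] [IsAddTorsionFree G] (n : ℕ) (x : G), n ≠ 0 →
      n • x = 0 → x = 0 := by
    intro G _ _ n x hn h
    apply nsmul_right_injective hn
    simpa using h
  refine ⟨fun G _ _ S m hm hS => allG hk hm (htf G) S hS, fun G _ _ S => ?_, fun ε h0 => ?_⟩
  · rcases Nat.eq_zero_or_pos S.card with h | h
    · refine ⟨∅, empty_subset _, ?_, ?_⟩
      · intro a d _ hall
        have := hall 0 (by omega)
        simp at this
      · rw [h, r_zero]
        simp
    · obtain ⟨A, hA, hf, hc⟩ := allG hk h (htf G) S (by omega)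
      refine ⟨A, hA, hf, le_trans (le_of_eq ?_) hc⟩
      have h0 : (0 : ℝ) < S.card := by exact_mod_cast h
      field_simp
      ring
  · obtain ⟨C, E, hE, h⟩ := quarter.{u} hk h0
    exact ⟨C, E, hE, fun N hN hNE G _ _ S hS w hw => h N hN hNE G (htf G) S hS w hw⟩

end Pool.Agent.Results.MP_0f71ae_nt.ArbitrarySets
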