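import Pool.Agent.H602.HF.Half

/-!
# Progression-free subsets of sets of moderately small doubling

For `k ≥ 3` let `r k N` be the largest size of a subset of `{1, ..., N}` without arithmetic
progressions of length `k` (`k = 3`: the function `r_3` of the question), and for a finite set `S` of a
torsion-free group (the integers, `ℤ ^ d`, the reals) let `r(S)` be the largest size of a subset of `S`
without such progressions.

* (1) Outside a set of `N` of logarithmic density zero (the sum of the reciprocals up to `x` is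
  `O((log x) ^ (3 / 4))`), every `S` with `N` elements and `|S + S| ≤ exp ((log N) ^ (1 / 4) / 400000) |S|`
  has `r(S) ≥ (1 / 2 - ε) r k N`; more generally some progression-free subset carries a proportion
  `(1 / 2 - ε) r k N / N` of any given weight `w ≥ 0` on `S`.
* (2) For all `N`, `K` and all `S` with `N` elements and `|S + S| ≤ K |S|` we have
  `r(S) ≤ (2 K) ^ 100001 r k N`.

Proof.  `S` is, as a whole, Freiman isomorphic (of order two) to a subset of a cyclic group `ℤ / m` with
`m ≤ (2 K) ^ 100000 N` (`Pool.Agent.H602.MD.model`).  For (1) use random translates of an extremal set of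
the interval `{0, ..., ⌊(m - 1) / 2⌋}`, which is progression-free in `ℤ / m`, and that the density
`r k M / M` hardly changes for `M` in a wide window around `N`, for all `N` which are not exceptional.
For (2) a progression-free subset of `ℤ / m` is a progression-free set of integers in an interval of
length `m`.
-/

set_option autoImplicit false

open Finset
open scoped Pointwise

namespace Pool.Agent.Results.MP_0f71ae_nt.PolynomialDoubling

open Pool.Agent.H617R3.AP Pool.Agent.H602.KS

universe u

open Classical in
/-- `FreeIn k A`: `A` contains no progression `a, a + d, ..., a + (k - 1) d` with `d ≠ 0`. -/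
theorem result :
    -- (1) the lower bound, for almost all `N`, with weights
    (∀ k : ℕ, 3 ≤ k → ∀ ε : ℝ, 0 < ε → ∃ (C : ℝ) (E : Set ℕ),
      (∀ x : ℕ, 2 ≤ x → ∑ N ∈ (Icc 1 x).filter (fun N => N ∈ E), (1 : ℝ) / N ≤
        C * Real.log x ^ (3 / 4 : ℝ)) ∧
      ∀ N : ℕ, 1 ≤ N → N ∉ E → ∀ (G : Type u) [AddCommGroup G] [IsAddTorsionFree G] (S : Finset G),
        S.card = N →
        ((S + S).card : ℝ) ≤ Real.exp (Real.log N ^ (1 / 4 : ℝ) / 400000) * N →
        ∀ w : G → ℝ, (∀ x, 0 ≤ w x) → ∃ A ⊆ S, FreeIn k A ∧
          ((1 / 2 - ε) * (r k N / N)) * ∑ x ∈ S, w x ≤ ∑ x ∈ A, w x) ∧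
    -- (2) the upper bound, for all `N`
    ∀ (k : ℕ), 3 ≤ k → ∀ (K : ℝ) (G : Type u) [AddCommGroup G] [IsAddTorsionFree G] (S : Finset G),
      ((S + S).card : ℝ) ≤ K * S.card →
      ∀ A ⊆ S, FreeIn k A → (A.card : ℝ) ≤ (2 * K) ^ 100001 * r k S.card := by
  have htf : ∀ (G : Type u) [AddCommGroup G] [IsAddTorsionFree G] (n : ℕ) (x : G), n ≠ 0 →
      n • x = 0 → x = 0 := by
    intro G _ _ n x hn h
    apply nsmul_right_injective hn
    simpa using h
  refine ⟨fun k hk ε h0 => ?_, fun k hk K G _ _ S hK A hAS hA =>
    Pool.Agent.H602.HF.upperP (htf G) hk hK hAS hA⟩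
  obtain ⟨C, E, hE, h⟩ := Pool.Agent.H602.HF.lowerP.{u} hk h0
  exact ⟨C, E, hE, fun N hN hNE G _ _ S hS hd w hw => h N hN hNE G (htf G) S hS hd w hw⟩

end Pool.Agent.Results.MP_0f71ae_nt.PolynomialDoubling
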