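import Pool.Agent.H602.KS.Final

/-!
# Progression-free subsets of sets of small doubling: the intervals are asymptotically the worst sets

For `k ≥ 3` let `r k N` be the largest size of a subset of `{1, ..., N}` without arithmetic
progressions of length `k` (`k = 3`: the function `r_3` of the question).  Let `S` be a set with `N`
elements in a torsion-free group (the integers, `ℤ ^ d`, the reals) with small doubling: progressions,
boxes in `ℤ ^ d`, the lattice points of convex bodies, Bohr sets, and all dense subsets of such sets.

* (1) Outside a set of `N` of logarithmic density zero (the sum of the reciprocals up to `x` is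
  `O((log x) ^ (3 / 4))`), for all `S` with `|S + S| ≤ (log N) ^ (1 / 240000) |S|`: some
  progression-free subset of `S` has at least `(1 - ε) r k N` elements.  So
  `min r(S) = (1 + o(1)) r k N`, where `r(S)` is the largest size of a progression-free subset of `S`
  and the minimum is taken over these `S` with `N` elements (the interval is one of them).  More
  generally some progression-free subset carries a proportion `(1 - ε) r k N / N` of any given
  weight `w ≥ 0` on `S`.
* (2) Conversely, for all `N` and all `S` with `|S + S| ≤ K |S|`, the progression-free subsets of `S` have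
  at most `C(K) r k N` elements.  So an order of magnitude for `r_3(N)` is the order of magnitude for
  all these sets.

Proof.  By Freiman's theorem (in the library with good bounds) `S` is contained in few translates of
a progression of bounded rank and of size `O(|S|)`.  Among all the copies of `S` in the integers
(Freiman isomorphic of order two) take one of minimal diameter `l`.  If `l` is much larger than
`|S|` then by Dirichlet's theorem some dilation modulo a prime number between `4 l` and `8 l` maps the
copy to a set of small residues, and this is a copy of smaller diameter.  So `S` is isomorphic to a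
dense subset of an interval `I`.  Now use random translates of the extremal sets of a longer
interval, and that the density `r k M / M` hardly changes for `M` in a wide window around `N`, for all
`N` which are not exceptional.
-/

set_option autoImplicit false

open Finset
open scoped Pointwise

namespace Pool.Agent.Results.MP_0f71ae_nt.SmallDoubling

open Pool.Agent.H617R3.AP Pool.Agent.H602.KS

universe u

open Classical in
/-- `FreeIn k A`: `A` contains no progression `a, a + d, ..., a + (k - 1) d` with `d ≠ 0`. -/
theorem result :
    -- (1) the lower bound, for almost all `N`, with weights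
    (∀ k : ℕ, 3 ≤ k → ∀ ε : ℝ, 0 < ε → ∃ (C : ℝ) (E : Set ℕ),
      (∀ x : ℕ, 2 ≤ x → ∑ N ∈ (Icc 1 x).filter (fun N => N ∈ E), (1 : ℝ) / N ≤
        C * Real.log x ^ (3 / 4 : ℝ)) ∧
      ∀ N : ℕ, 1 ≤ N → N ∉ E → ∀ (G : Type u) [AddCommGroup G] [IsAddTorsionFree G] (S : Finset G),
        S.card = N → ((S + S).card : ℝ) ≤ Real.log N ^ (1 / 240000 : ℝ) * N →
        ∀ w : G → ℝ, (∀ x, 0 ≤ w x) → ∃ A ⊆ S, FreeIn k A ∧
          ((1 - ε) * (r k N / N)) * ∑ x ∈ S, w x ≤ ∑ x ∈ A, w x) ∧
    -- (2) the upper bound, for all `N`
    ∀ K : ℝ, ∃ C : ℝ, ∀ k : ℕ, 3 ≤ k → ∀ (G : Type u) [AddCommGroup G] [IsAddTorsionFree G]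
      (S : Finset G), ((S + S).card : ℝ) ≤ K * S.card →
      ∀ A ⊆ S, FreeIn k A → (A.card : ℝ) ≤ C * r k S.card := by
  have htf : ∀ (G : Type u) [AddCommGroup G] [IsAddTorsionFree G] (n : ℕ) (x : G), n ≠ 0 →
      n • x = 0 → x = 0 := by
    intro G _ _ n x hn h
    apply nsmul_right_injective hn
    simpa using h
  refine ⟨fun k hk ε h0 => ?_, fun K => ⟨len K + 2, fun k hk G _ _ S hK A hAS hA =>
    upper (htf G) hk hK hAS hA⟩⟩
  obtain ⟨C, E, hE, h⟩ := lower.{u} hk h0
  exact ⟨C, E, hE, fun N hN hNE G _ _ S hS hd w hw => h N hN hNE G (htf G) S hS hd w hw⟩

end Pool.Agent.Results.MP_0f71ae_nt.SmallDoubling
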